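import Mathlib

/-!
# The second moment of a linear map on a box
-/

set_option autoImplicit false

open Finset

namespace Pool.Agent.N840.CU

/-- the centred value -/
def ctr (H : ℕ) (t : Fin (H + 1)) : ℝ := 2 * (t : ℕ) - H

lemma sum_nat (H : ℕ) : ∑ t ∈ range (H + 1), (2 * (t : ℝ) - H) = 0 := by
  have h : ∀ k : ℕ, ∑ t ∈ range k, (t : ℝ) = k * (k - 1) / 2 := by
    intro k
    induction k with
    | zero => simp
    | succ k ih => rw [Finset.sum_range_succ, ih]; push_cast; ring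
  rw [Finset.sum_sub_distrib, ← Finset.mul_sum, h, Finset.sum_const, card_range, nsmul_eq_mul]
  push_cast
  ring

lemma sum_sq_nat (H : ℕ) :
    ∑ t ∈ range (H + 1), (2 * (t : ℝ) - H) ^ 2 = ((H : ℝ) + 1) * (H * (H + 2) / 3) := by
  have h1 : ∀ k : ℕ, ∑ t ∈ range k, (t : ℝ) = k * (k - 1) / 2 := by
    intro k
    induction k with
    | zero => simp
    | succ k ih => rw [Finset.sum_range_succ, ih]; push_cast; ring
  have h2 : ∀ k : ℕ, ∑ t ∈ range k, (t : ℝ) ^ 2 = k * (k - 1) * (2 * k - 1) / 6 := by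
    intro k
    induction k with
    | zero => simp
    | succ k ih => rw [Finset.sum_range_succ, ih]; push_cast; ring
  have h3 : ∀ t : ℝ, (2 * t - H) ^ 2 = 4 * t ^ 2 - 4 * H * t + H ^ 2 := fun t => by ring
  simp only [h3]
  rw [Finset.sum_add_distrib, Finset.sum_sub_distrib, ← Finset.mul_sum, ← Finset.mul_sum, h1, h2,
    Finset.sum_const, card_range, nsmul_eq_mul]
  push_cast
  ring

lemma sum_ctr (H : ℕ) : ∑ t : Fin (H + 1), ctr H t = 0 := by
  unfold ctr
  rw [Fin.sum_univ_eq_sum_range (fun t : ℕ => 2 * (t : ℝ) - H) (H + 1)]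
  exact sum_nat H

lemma sum_ctr_sq (H : ℕ) :
    ∑ t : Fin (H + 1), (ctr H t) ^ 2 = ((H : ℝ) + 1) * (H * (H + 2) / 3) := by
  unfold ctr
  rw [Fin.sum_univ_eq_sum_range (fun t : ℕ => (2 * (t : ℝ) - H) ^ 2) (H + 1)]
  exact sum_sq_nat H

/-- the second moment of one linear form -/
theorem moment (H : ℕ) : ∀ (n : ℕ) (x : Fin n → ℝ) (s : ℝ),
    ∑ e : Fin n → Fin (H + 1), (s + ∑ i, ctr H (e i) * x i) ^ 2 =
      (H + 1) ^ n * (s ^ 2 + H * (H + 2) / 3 * ∑ i, (x i) ^ 2) := by
  intro n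
  induction n with
  | zero => intro x s; simp
  | succ n ih =>
    intro x s
    have h1 : ∑ e : Fin (n + 1) → Fin (H + 1), (s + ∑ i, ctr H (e i) * x i) ^ 2 =
        ∑ t : Fin (H + 1), ∑ e : Fin n → Fin (H + 1),
          ((s + ctr H t * x 0) + ∑ i, ctr H (e i) * x i.succ) ^ 2 := by
      rw [← Fintype.sum_prod_type']
      refine (Fintype.sum_equiv (Fin.consEquiv (fun _ => Fin (H + 1))) _ _ fun te => ?_).symm
      rw [Fin.sum_univ_succ]
      simp only [Fin.consEquiv_apply, Fin.cons_zero, Fin.cons_succ]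
      ring
    rw [h1, Finset.sum_congr rfl fun t _ => ih (fun i => x i.succ) (s + ctr H t * x 0),
      ← Finset.mul_sum, Finset.sum_add_distrib, Finset.sum_const, Finset.card_univ,
      Fintype.card_fin, nsmul_eq_mul]
    have h2 : ∑ t : Fin (H + 1), (s + ctr H t * x 0) ^ 2 =
        (H + 1) * (s ^ 2 + H * (H + 2) / 3 * x 0 ^ 2) := by
      have h3 : ∀ t : Fin (H + 1), (s + ctr H t * x 0) ^ 2 =
          s ^ 2 + (2 * s * x 0) * ctr H t + x 0 ^ 2 * (ctr H t) ^ 2 := fun t => by ring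
      rw [Finset.sum_congr rfl fun t _ => h3 t, Finset.sum_add_distrib, Finset.sum_add_distrib,
        ← Finset.mul_sum, ← Finset.mul_sum, sum_ctr, sum_ctr_sq, Finset.sum_const, Finset.card_univ,
        Fintype.card_fin, nsmul_eq_mul]
      push_cast
      ring
    rw [h2, Fin.sum_univ_succ]
    push_cast
    ring

/-- Half of the points of the box are good. -/
theorem half (H n : ℕ) {S : Type} [Fintype S] (x : Fin n → S → ℝ) :
    (H + 1) ^ n ≤ 2 * ((univ : Finset (Fin n → Fin (H + 1))).filter (fun e =>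
      ∑ s, (∑ i, ctr H (e i) * x i s) ^ 2 ≤
        2 * (H * (H + 2) / 3 * ∑ i, ∑ s, (x i s) ^ 2))).card := by
  classical
  set Q : (Fin n → Fin (H + 1)) → ℝ := fun e => ∑ s, (∑ i, ctr H (e i) * x i s) ^ 2 with hQ
  set M : ℝ := H * (H + 2) / 3 * ∑ i, ∑ s, (x i s) ^ 2 with hM
  have hM0 : 0 ≤ M := by positivity
  have hQ0 : ∀ e, 0 ≤ Q e := fun e => Finset.sum_nonneg fun s _ => sq_nonneg _
  have htot : ∑ e, Q e = (H + 1) ^ n * M := by
    rw [hQ, Finset.sum_comm]
    have h1 : ∀ s : S, ∑ e : Fin n → Fin (H + 1), (∑ i, ctr H (e i) * x i s) ^ 2 =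
        (H + 1) ^ n * (H * (H + 2) / 3 * ∑ i, (x i s) ^ 2) := by
      intro s
      have h2 := moment H n (fun i => x i s) 0
      simpa using h2
    rw [Finset.sum_congr rfl fun s _ => h1 s, ← Finset.mul_sum, ← Finset.mul_sum,
      Finset.sum_comm]
  set G := (univ : Finset (Fin n → Fin (H + 1))).filter (fun e => Q e ≤ 2 * M) with hG
  set B := (univ : Finset (Fin n → Fin (H + 1))).filter (fun e => ¬ Q e ≤ 2 * M) with hB
  have hcard : G.card + B.card = (H + 1) ^ n := by
    rw [hG, hB, Finset.card_filter_add_card_filter_not, Finset.card_univ, Fintype.card_fun,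
      Fintype.card_fin, Fintype.card_fin]
  show (H + 1) ^ n ≤ 2 * G.card
  by_contra hcon
  push Not at hcon
  have hB2 : (H + 1) ^ n < 2 * B.card := by omega
  have h3 : (B.card : ℝ) * (2 * M) ≤ ∑ e, Q e := by
    calc (B.card : ℝ) * (2 * M) = ∑ _e ∈ B, 2 * M := by rw [Finset.sum_const, nsmul_eq_mul]
      _ ≤ ∑ e ∈ B, Q e := by
        refine Finset.sum_le_sum fun e he => ?_
        have := (Finset.mem_filter.1 he).2
        push Not at this
        exact this.le
      _ ≤ _ := Finset.sum_le_sum_of_subset_of_nonneg (Finset.filter_subset _ _) fun e _ _ => hQ0 e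
  rcases hM0.eq_or_lt with h0 | h0
  · -- then all `Q e` are zero
    rw [htot, ← h0, mul_zero] at h3
    have h4 : ∑ e, Q e = 0 := by rw [htot, ← h0, mul_zero]
    have h5 := (Finset.sum_eq_zero_iff_of_nonneg fun e _ => hQ0 e).1 h4
    have h6 : B = ∅ := by
      rw [hB, Finset.filter_eq_empty_iff]
      intro e he h
      exact h (by rw [h5 e he]; positivity)
    rw [h6, Finset.card_empty] at hB2
    omega
  · rw [htot] at h3
    have h4 : (B.card : ℝ) * 2 ≤ (H + 1) ^ n := by
      have : (B.card : ℝ) * 2 * M ≤ (H + 1) ^ n * M := by linarith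
      exact le_of_mul_le_mul_right this h0
    have h5 : ((H + 1) ^ n : ℕ) < ((2 * B.card : ℕ) : ℝ) := by exact_mod_cast hB2
    push_cast at h5
    linarith

end Pool.Agent.N840.CU
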