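import Mathlib

/-!
# A lower bound for the square sum of the logarithms of a unit

The method is the one of Schinzel for the Mahler measure, see `Pool.Agent.TH350.VD.Unit` for the sum
of the absolute values.
-/

set_option autoImplicit false

open Finset

namespace Pool.Agent.N840.CU

lemma cub (X : ℝ) (hX : 0 ≤ X) : 2 * (X - 1) ≤ 8 / 27 * X ^ 3 := by
  nlinarith [mul_nonneg (sq_nonneg (2 * X - 3)) (by linarith : (0 : ℝ) ≤ X + 3)]

/-- `(t - 1/t)² ≤ (8/27) exp (6 (log t)²)` -/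
lemma real_ineq {t : ℝ} (ht : 0 < t) :
    (t - 1 / t) ^ 2 ≤ 8 / 27 * Real.exp (6 * (Real.log t) ^ 2) := by
  set s := Real.log t with hs
  have h1 : (t - 1 / t) ^ 2 = 2 * (Real.cosh (2 * s) - 1) := by
    rw [Real.cosh_eq, show 2 * s = s + s by ring, neg_add, Real.exp_add, Real.exp_add,
      Real.exp_neg, hs, Real.exp_log ht]
    field_simp
    ring
  have h2 : Real.cosh (2 * s) ≤ Real.exp ((2 * s) ^ 2 / 2) := Real.cosh_le_exp_half_sq _
  have h3 : Real.exp ((2 * s) ^ 2 / 2) = Real.exp (2 * s ^ 2) := by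
    congr 1
    ring
  have h4 : Real.exp (6 * s ^ 2) = (Real.exp (2 * s ^ 2)) ^ 3 := by
    rw [← Real.exp_nat_mul]
    congr 1
    push_cast
    ring
  rw [h1, h4]
  have h5 := cub (Real.exp (2 * s ^ 2)) (Real.exp_pos _).le
  rw [h3] at h2
  linarith

/-- Let `η` be a unit of a number field with complex conjugation, not all of whose conjugates have
absolute value one. Then the square sum of the logarithms of the absolute values of the conjugates
is large. -/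
theorem unit_sq {K : Type} [Field K] [NumberField K] (c : K →+* K)
    (hc : ∀ (φ : K →ₐ[ℚ] ℂ) (x : K), φ (c x) = (starRingEnd ℂ) (φ x)) (η : K)
    (h0 : η ≠ 0) (h1 : IsIntegral ℤ η) (h2 : IsIntegral ℤ η⁻¹)
    (hne : ∃ φ : K →ₐ[ℚ] ℂ, ‖φ η‖ ≠ 1) :
    (Module.finrank ℚ K : ℝ) * Real.log (27 / 8) ≤
      6 * ∑ φ : K →ₐ[ℚ] ℂ, (Real.log ‖φ η‖) ^ 2 := by
  classical
  have hcint : ∀ x : K, IsIntegral ℤ x → IsIntegral ℤ (c x) := fun x hx =>
    map_isIntegral_int c hx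
  set β : K := (η * c η - 1) ^ 2 * (η⁻¹ * c η⁻¹) with hβ
  have hβint : IsIntegral ℤ β :=
    (((h1.mul (hcint _ h1)).sub isIntegral_one).pow 2).mul (h2.mul (hcint _ h2))
  -- the conjugates of `β`
  have hφ : ∀ φ : K →ₐ[ℚ] ℂ, ‖φ β‖ = (‖φ η‖ - 1 / ‖φ η‖) ^ 2 := by
    intro φ
    have hφ0 : φ η ≠ 0 := by rwa [ne_eq, map_eq_zero]
    have hn0 : ‖φ η‖ ≠ 0 := norm_ne_zero_iff.2 hφ0
    have e1 : φ β = (((‖φ η‖ - 1 / ‖φ η‖) ^ 2 : ℝ) : ℂ) := by
      rw [hβ, map_mul, map_pow, map_sub, map_mul, map_mul, hc, map_one, map_inv₀, hc, map_inv₀,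
        Complex.mul_conj, map_inv₀]
      have e2 : (φ η)⁻¹ * ((starRingEnd ℂ) (φ η))⁻¹ = ((Complex.normSq (φ η) : ℝ) : ℂ)⁻¹ := by
        rw [← mul_inv, Complex.mul_conj]
      rw [e2, Complex.normSq_eq_norm_sq]
      have hn1 : ((‖φ η‖ : ℝ) : ℂ) ≠ 0 := by exact_mod_cast hn0
      push_cast
      field_simp
    rw [e1, Complex.norm_real, Real.norm_eq_abs, abs_of_nonneg (sq_nonneg _)]
  have hβ0 : β ≠ 0 := by
    intro h
    obtain ⟨φ, hφ1⟩ := hne
    have h3 := hφ φ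
    rw [h, map_zero, norm_zero] at h3
    have hn0 : 0 < ‖φ η‖ := norm_pos_iff.2 (by rwa [ne_eq, map_eq_zero])
    have h4 : ‖φ η‖ - 1 / ‖φ η‖ = 0 := by
      have := h3.symm
      exact pow_eq_zero_iff (two_ne_zero) |>.1 this
    have h5 : ‖φ η‖ ^ 2 = 1 := by
      field_simp at h4
      linarith
    exact hφ1 ((pow_eq_one_iff_of_nonneg (norm_nonneg _) two_ne_zero).1 h5)
  -- the norm
  have hN : (1 : ℝ) ≤ ∏ φ : K →ₐ[ℚ] ℂ, ‖φ β‖ := by
    have h3 := Algebra.norm_eq_prod_embeddings ℚ ℂ β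
    have h4 : IsIntegral ℤ (Algebra.norm ℚ β) := Algebra.isIntegral_norm ℚ hβint
    obtain ⟨n, hn⟩ := IsIntegrallyClosed.isIntegral_iff.1 h4
    have h5 : Algebra.norm ℚ β ≠ 0 := by rwa [ne_eq, Algebra.norm_eq_zero_iff]
    have hn0 : n ≠ 0 := by
      rintro rfl
      exact h5 (by rw [← hn]; simp)
    have h6 : (1 : ℝ) ≤ |(n : ℝ)| := by
      rw [← Int.cast_abs]
      exact_mod_cast Int.one_le_abs hn0
    have h7 : ‖(algebraMap ℚ ℂ) (Algebra.norm ℚ β)‖ = |(n : ℝ)| := by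
      rw [← hn]
      simp
    rw [h3, norm_prod] at h7
    rw [h7]
    exact h6
  have hle : ∏ φ : K →ₐ[ℚ] ℂ, ‖φ β‖ ≤
      ∏ φ : K →ₐ[ℚ] ℂ, (8 / 27 * Real.exp (6 * (Real.log ‖φ η‖) ^ 2)) := by
    refine Finset.prod_le_prod (fun φ _ => norm_nonneg _) fun φ _ => ?_
    rw [hφ]
    exact real_ineq (norm_pos_iff.2 (by rwa [ne_eq, map_eq_zero]))
  rw [Finset.prod_mul_distrib, Finset.prod_const, ← Real.exp_sum, ← Finset.mul_sum,
    Finset.card_univ, AlgHom.card] at hle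
  have h3 := hN.trans hle
  have h4 := Real.log_le_log one_pos h3
  rw [Real.log_one, Real.log_mul (by positivity) (Real.exp_ne_zero _), Real.log_exp, Real.log_pow]
    at h4
  have h5 : Real.log (8 / 27) = -Real.log (27 / 8) := by
    rw [← Real.log_inv]
    norm_num
  rw [h5] at h4
  linarith

end Pool.Agent.N840.CU
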