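import Mathlib
import Pool.Agent.N840.CU.Unit
import Pool.Agent.N840.CU.Box

/-!
# The index of a group generated by few small units in its saturation
-/

set_option autoImplicit false

open Finset

namespace Pool.Agent.N840.CU

/-- `w` is a root of unity -/
def IsTor {K : Type} [Field K] (w : K) : Prop := ∃ m : ℕ, 0 < m ∧ w ^ m = 1

section
variable {K : Type} [Field K]

lemma IsTor.ne_zero {w : K} (h : IsTor w) : w ≠ 0 := by
  obtain ⟨m, hm, h1⟩ := h
  rintro rfl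
  rw [zero_pow hm.ne'] at h1
  exact zero_ne_one h1

lemma IsTor.one : IsTor (1 : K) := ⟨1, one_pos, one_pow 1⟩

lemma IsTor.mul {w z : K} (hw : IsTor w) (hz : IsTor z) : IsTor (w * z) := by
  obtain ⟨m, hm, h1⟩ := hw
  obtain ⟨k, hk, h2⟩ := hz
  refine ⟨m * k, Nat.mul_pos hm hk, ?_⟩
  rw [mul_pow, pow_mul, h1, one_pow, mul_comm m k, pow_mul, h2, one_pow, one_mul]

lemma IsTor.inv {w : K} (hw : IsTor w) : IsTor w⁻¹ := by
  obtain ⟨m, hm, h1⟩ := hw
  exact ⟨m, hm, by rw [inv_pow, h1, inv_one]⟩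

lemma IsTor.pow {w : K} (hw : IsTor w) (k : ℕ) : IsTor (w ^ k) := by
  obtain ⟨m, hm, h1⟩ := hw
  exact ⟨m, hm, by rw [← pow_mul, mul_comm, pow_mul, h1, one_pow]⟩

lemma IsTor.integral {w : K} (hw : IsTor w) : IsIntegral ℤ w := by
  obtain ⟨m, hm, h1⟩ := hw
  exact IsIntegral.of_pow hm (by rw [h1]; exact isIntegral_one)

lemma IsTor.norm {w : K} (hw : IsTor w) {F : Type} [FunLike F K ℂ] [MonoidHomClass F K ℂ] (φ : F) :
    ‖φ w‖ = 1 := by
  obtain ⟨m, hm, h1⟩ := hw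
  have h2 : ‖φ w‖ ^ m = 1 := by
    rw [← norm_pow, ← map_pow, h1, map_one, norm_one]
  exact (pow_eq_one_iff_of_nonneg (norm_nonneg _) hm.ne').1 h2

lemma int_zpow {x : K} (h1 : IsIntegral ℤ x) (h2 : IsIntegral ℤ x⁻¹) (n : ℤ) :
    IsIntegral ℤ (x ^ n) := by
  rcases n with n | n
  · rw [Int.ofNat_eq_natCast, zpow_natCast]; exact h1.pow n
  · rw [zpow_negSucc, ← inv_pow]; exact h2.pow _

end

/-- Units `ξ i` of a field with complex conjugation; elements `y j`, incongruent modulo the group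
generated by the `ξ i` and the roots of unity, whose `q`-th powers are in this group. Then there are
at most `2 R ^ n` of them. -/
theorem family {K : Type} [Field K] [NumberField K] (c : K →+* K)
    (hc : ∀ (φ : K →ₐ[ℚ] ℂ) (x : K), φ (c x) = (starRingEnd ℂ) (φ x)) {n J : ℕ}
    (ξ : Fin n → K) (h0 : ∀ i, ξ i ≠ 0) (h1 : ∀ i, IsIntegral ℤ (ξ i))
    (h2 : ∀ i, IsIntegral ℤ (ξ i)⁻¹) (R q : ℕ) (hR0 : 0 < R) (hq : 0 < q)
    (hR : 4 * ∑ i, ∑ φ : K →ₐ[ℚ] ℂ, (Real.log ‖φ (ξ i)‖) ^ 2 ≤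
      (R : ℝ) ^ 2 * ((Module.finrank ℚ K : ℝ) * Real.log (27 / 8)))
    (y : Fin J → K) (hy : ∀ j, ∃ (w : K) (b : Fin n → ℤ), IsTor w ∧
      y j ^ q = w * ∏ i, ξ i ^ b i)
    (hne : ∀ j k, (∃ (w : K) (m : Fin n → ℤ), IsTor w ∧ y j = w * y k * ∏ i, ξ i ^ m i) → j = k) :
    J ≤ 2 * R ^ n := by
  classical
  choose w b hw hb using hy
  by_contra hcon
  push Not at hcon
  obtain ⟨H, rfl⟩ : ∃ H, q = H + 1 := ⟨q - 1, by omega⟩
  set x : Fin n → (K →ₐ[ℚ] ℂ) → ℝ := fun i φ => Real.log ‖φ (ξ i)‖ with hx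
  set G := (univ : Finset (Fin n → Fin (H + 1))).filter (fun e =>
      ∑ s, (∑ i, ctr H (e i) * x i s) ^ 2 ≤
        2 * (H * (H + 2) / 3 * ∑ i, ∑ s, (x i s) ^ 2)) with hG
  have hhalf : (H + 1) ^ n ≤ 2 * G.card := half H n x
  have : NeZero ((H + 1) * R) := ⟨(Nat.mul_pos hq hR0).ne'⟩
  let F : Fin J × G → (Fin n → ZMod ((H + 1) * R)) := fun je i =>
    ((R * b je.1 i + ((je.2 : Fin n → Fin (H + 1)) i : ℕ) : ℤ) : ZMod ((H + 1) * R))
  have hcard : Fintype.card (Fin n → ZMod ((H + 1) * R)) < Fintype.card (Fin J × G) := by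
    rw [Fintype.card_fun, ZMod.card, Fintype.card_fin, Fintype.card_prod, Fintype.card_fin,
      Fintype.card_coe]
    have h3 : 2 * (((H + 1) * R) ^ n) < 2 * (J * G.card) := by
      calc 2 * (((H + 1) * R) ^ n) = (2 * R ^ n) * (H + 1) ^ n := by rw [mul_pow]; ring
        _ < J * (H + 1) ^ n := Nat.mul_lt_mul_of_pos_right hcon (by positivity)
        _ ≤ J * (2 * G.card) := Nat.mul_le_mul_left _ hhalf
        _ = _ := by ring
    omega
  obtain ⟨⟨j, e⟩, ⟨k, e'⟩, hjk, hF⟩ := Fintype.exists_ne_map_eq_of_card_lt F hcard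
  -- the exponents
  have h3 : ∀ i, ∃ m : ℤ, R * (b j i - b k i) + (((e : Fin n → Fin (H + 1)) i : ℕ) : ℤ) -
      (((e' : Fin n → Fin (H + 1)) i : ℕ) : ℤ) = ((H + 1 : ℕ) * R : ℕ) * m := by
    intro i
    have h4 := congrFun hF i
    simp only [F] at h4
    rw [← sub_eq_zero, ← Int.cast_sub, ZMod.intCast_zmod_eq_zero_iff_dvd] at h4
    obtain ⟨m, hm⟩ := h4
    exact ⟨m, by rw [← hm]; ring⟩
  choose m hm using h3
  set η : K := y j / y k * ∏ i, ξ i ^ (-m i) with hη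
  have hy0 : ∀ l, y l ≠ 0 := by
    intro l h
    have h4 := hb l
    rw [h, zero_pow (by omega)] at h4
    exact mul_ne_zero (hw l).ne_zero (Finset.prod_ne_zero_iff.2 fun i _ => zpow_ne_zero _ (h0 i))
      h4.symm
  have hη0 : η ≠ 0 := mul_ne_zero (div_ne_zero (hy0 j) (hy0 k))
    (Finset.prod_ne_zero_iff.2 fun i _ => zpow_ne_zero _ (h0 i))
  have hηQ : η ^ ((H + 1) * R) = (w j / w k) ^ R * ∏ i, ξ i ^
      ((((e' : Fin n → Fin (H + 1)) i : ℕ) : ℤ) - (((e : Fin n → Fin (H + 1)) i : ℕ) : ℤ)) := by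
    rw [hη, mul_pow, div_pow, pow_mul, pow_mul, hb j, hb k, ← Finset.prod_pow]
    rw [← div_pow, mul_div_mul_comm, mul_pow, ← Finset.prod_div_distrib, ← Finset.prod_pow,
      mul_assoc, ← Finset.prod_mul_distrib]
    congr 1
    refine Finset.prod_congr rfl fun i _ => ?_
    rw [← zpow_natCast, ← zpow_natCast, ← zpow_sub₀ (h0 i), ← zpow_mul, ← zpow_mul,
      ← zpow_add₀ (h0 i)]
    congr 1
    have h4 := hm i
    push_cast at h4 ⊢
    linear_combination h4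
  have hwt : IsTor ((w j / w k) ^ R) := by
    rw [div_eq_mul_inv]
    exact ((hw j).mul (hw k).inv).pow R
  have hint1 : IsIntegral ℤ η := by
    apply IsIntegral.of_pow (Nat.mul_pos hq hR0)
    rw [hηQ]
    exact hwt.integral.mul (IsIntegral.prod _ fun i _ => int_zpow (h1 i) (h2 i) _)
  have hint2 : IsIntegral ℤ η⁻¹ := by
    apply IsIntegral.of_pow (Nat.mul_pos hq hR0)
    rw [inv_pow, hηQ, mul_inv, ← Finset.prod_inv_distrib]
    refine hwt.inv.integral.mul (IsIntegral.prod _ fun i _ => ?_)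
    rw [← zpow_neg]
    exact int_zpow (h1 i) (h2 i) _
  -- the logarithms
  have hlog : ∀ φ : K →ₐ[ℚ] ℂ, ((H + 1 : ℝ) * R) * Real.log ‖φ η‖ =
      ∑ i, ((((e' : Fin n → Fin (H + 1)) i : ℕ) : ℝ) -
        (((e : Fin n → Fin (H + 1)) i : ℕ) : ℝ)) * x i φ := by
    intro φ
    have h4 : ‖φ η‖ ^ ((H + 1) * R) = ∏ i, ‖φ (ξ i)‖ ^
        ((((e' : Fin n → Fin (H + 1)) i : ℕ) : ℤ) - (((e : Fin n → Fin (H + 1)) i : ℕ) : ℤ)) := by
      rw [← norm_pow, ← map_pow, hηQ, map_mul, norm_mul, hwt.norm, one_mul, map_prod, norm_prod]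
      exact Finset.prod_congr rfl fun i _ => by rw [map_zpow₀, norm_zpow]
    have h5 := congrArg Real.log h4
    rw [Real.log_pow, Real.log_prod (fun i _ => zpow_ne_zero _
      (norm_ne_zero_iff.2 ((map_ne_zero φ).2 (h0 i))))] at h5
    push_cast at h5
    rw [h5]
    refine Finset.sum_congr rfl fun i _ => ?_
    rw [Real.log_zpow]
    push_cast
    rfl
  by_cases hex : ∃ φ : K →ₐ[ℚ] ℂ, ‖φ η‖ ≠ 1
  · -- impossible
    have h4 := unit_sq c hc η hη0 hint1 hint2 hex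
    have hge := (Finset.mem_filter.1 e.2).2
    have hge' := (Finset.mem_filter.1 e'.2).2
    set S := ∑ i, ∑ s, (x i s) ^ 2 with hS
    have h5 : ((H + 1 : ℝ) * R) ^ 2 * ∑ φ : K →ₐ[ℚ] ℂ, (Real.log ‖φ η‖) ^ 2 ≤
        2 / 3 * (H * (H + 2)) * S := by
      have h6 : ∀ φ : K →ₐ[ℚ] ℂ, ((H + 1 : ℝ) * R) ^ 2 * (Real.log ‖φ η‖) ^ 2 ≤
          1 / 2 * (∑ i, ctr H ((e : Fin n → Fin (H + 1)) i) * x i φ) ^ 2 +
          1 / 2 * (∑ i, ctr H ((e' : Fin n → Fin (H + 1)) i) * x i φ) ^ 2 := by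
        intro φ
        have h7 : ∑ i, ((((e' : Fin n → Fin (H + 1)) i : ℕ) : ℝ) -
            (((e : Fin n → Fin (H + 1)) i : ℕ) : ℝ)) * x i φ =
            1 / 2 * (∑ i, ctr H ((e' : Fin n → Fin (H + 1)) i) * x i φ -
              ∑ i, ctr H ((e : Fin n → Fin (H + 1)) i) * x i φ) := by
          rw [← Finset.sum_sub_distrib, Finset.mul_sum]
          refine Finset.sum_congr rfl fun i _ => ?_
          unfold ctr
          ring
        rw [← mul_pow, hlog φ, h7]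
        nlinarith [sq_nonneg (∑ i, ctr H ((e' : Fin n → Fin (H + 1)) i) * x i φ +
              ∑ i, ctr H ((e : Fin n → Fin (H + 1)) i) * x i φ)]
      rw [Finset.mul_sum]
      refine (Finset.sum_le_sum fun φ _ => h6 φ).trans ?_
      rw [Finset.sum_add_distrib, ← Finset.mul_sum, ← Finset.mul_sum]
      linarith
    have hHR : (0 : ℝ) < (H + 1 : ℝ) * R := by positivity
    have hL0 : 0 < Real.log (27 / 8) := Real.log_pos (by norm_num)
    have hd0 : (0 : ℝ) < Module.finrank ℚ K := by exact_mod_cast Module.finrank_pos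
    have h6 := mul_le_mul_of_nonneg_left h4 (sq_nonneg ((H + 1 : ℝ) * R))
    have h7 : ((H + 1 : ℝ) * R) ^ 2 * (Module.finrank ℚ K * Real.log (27 / 8)) ≤
        4 * (H * (H + 2)) * S := by nlinarith
    have h8 : ((H + 1 : ℝ)) ^ 2 * (4 * S) ≤
        (H + 1 : ℝ) ^ 2 * ((R : ℝ) ^ 2 * (Module.finrank ℚ K * Real.log (27 / 8))) :=
      mul_le_mul_of_nonneg_left hR (sq_nonneg _)
    have h9 : 4 * S ≤ 0 := by nlinarith
    have hS0 : 0 ≤ S := Finset.sum_nonneg fun i _ => Finset.sum_nonneg fun s _ => sq_nonneg _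
    have h10 : S = 0 := le_antisymm (by linarith) hS0
    rw [h10, mul_zero] at h7
    have : 0 < ((H + 1 : ℝ) * R) ^ 2 * (Module.finrank ℚ K * Real.log (27 / 8)) := by positivity
    linarith
  · -- `η` is a root of unity
    push Not at hex
    have h4 : IsTor η := by
      obtain ⟨r, hr, h5⟩ := NumberField.Embeddings.pow_eq_one_of_norm_eq_one K ℂ hint1
        (fun φ => hex φ.toRatAlgHom)
      exact ⟨r, hr, h5⟩
    have h5 : j = k := by
      refine hne j k ⟨η, m, h4, ?_⟩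
      have h6 : (∏ i, ξ i ^ (-m i)) * ∏ i, ξ i ^ (m i) = 1 := by
        rw [← Finset.prod_mul_distrib]
        refine Finset.prod_eq_one fun i _ => ?_
        rw [← zpow_add₀ (h0 i), neg_add_cancel, zpow_zero]
      rw [hη]
      have h7 := hy0 k
      field_simp
      rw [mul_assoc, h6, mul_one]
    subst h5
    apply hjk
    have h6 : e = e' := by
      apply Subtype.ext
      funext i
      have h7 := hm i
      rw [sub_self, mul_zero, zero_add] at h7
      have h8 : (((e : Fin n → Fin (H + 1)) i : ℕ) : ℤ) < H + 1 := by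
        have := ((e : Fin n → Fin (H + 1)) i).2
        exact_mod_cast this
      have h9 : (((e' : Fin n → Fin (H + 1)) i : ℕ) : ℤ) < H + 1 := by
        have := ((e' : Fin n → Fin (H + 1)) i).2
        exact_mod_cast this
      have h10 : (0 : ℤ) ≤ ((e : Fin n → Fin (H + 1)) i : ℕ) := Int.natCast_nonneg _
      have h11 : (0 : ℤ) ≤ ((e' : Fin n → Fin (H + 1)) i : ℕ) := Int.natCast_nonneg _
      have h12 : (((H + 1 : ℕ) * R : ℕ) : ℤ) ∣ (((e : Fin n → Fin (H + 1)) i : ℕ) : ℤ) -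
          (((e' : Fin n → Fin (H + 1)) i : ℕ) : ℤ) := ⟨m i, h7⟩
      have h13 : ((H : ℤ) + 1) ≤ (((H + 1 : ℕ) * R : ℕ) : ℤ) := by
        have : H + 1 ≤ (H + 1) * R := Nat.le_mul_of_pos_right _ hR0
        exact_mod_cast this
      have h14 := Int.eq_zero_of_abs_lt_dvd h12 (by rw [abs_lt]; constructor <;> linarith)
      apply Fin.ext
      have : (((e : Fin n → Fin (H + 1)) i : ℕ) : ℤ) = (((e' : Fin n → Fin (H + 1)) i : ℕ) : ℤ) := by
        linarith
      exact_mod_cast this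
    rw [h6]

end Pool.Agent.N840.CU
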