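import Mathlib

/-!
# The square sum of the numbers `log |1 - e(b/M)|`
-/

set_option autoImplicit false

open Finset

namespace Pool.Agent.N840.CU

/-- the antiderivative of `log (y / t) ^ 2` -/
noncomputable def anti (y t : ℝ) : ℝ :=
  t * (Real.log (y / t) ^ 2 + 2 * Real.log (y / t) + 2)

lemma anti_deriv {y t : ℝ} (hy : 0 < y) (ht : 0 < t) :
    HasDerivAt (anti y) (Real.log (y / t) ^ 2) t := by
  have h1 : HasDerivAt (fun u : ℝ => Real.log (y / u)) (-1 / t) t := by
    have h2 : HasDerivAt (fun u : ℝ => y / u) (-y / t ^ 2) t := by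
      have h3 := (hasDerivAt_inv ht.ne').const_mul y
      refine (h3.congr_deriv ?_).congr_of_eventuallyEq ?_
      · field_simp
      · exact Filter.Eventually.of_forall fun u => by simp [div_eq_mul_inv]
    have h4 := h2.log (by positivity)
    refine h4.congr_deriv ?_
    field_simp
  have h5 := (hasDerivAt_id t).mul (((h1.pow 2).add (h1.const_mul 2)).add_const 2)
  refine (h5.congr_deriv ?_).congr_of_eventuallyEq ?_
  · simp only [id, Pi.add_apply, Pi.pow_apply]
    field_simp
    ring
  · exact Filter.Eventually.of_forall fun u => by simp [anti]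

lemma sum_log_sq {y : ℝ} (hy : 0 < y) : ∀ k : ℕ, (k : ℝ) ≤ y →
    ∑ b ∈ range k, Real.log (y / (b + 1 : ℕ)) ^ 2 ≤ anti y k := by
  intro k
  induction k with
  | zero => intro _; simp [anti]
  | succ k ih =>
    intro hk
    rw [Finset.sum_range_succ]
    push_cast at hk
    have h1 := ih (by linarith)
    have h2 : 0 ≤ Real.log (y / (k + 1 : ℝ)) := by
      apply Real.log_nonneg
      rw [le_div_iff₀ (by positivity)]
      linarith
    rcases Nat.eq_zero_or_pos k with h0 | h0
    · subst h0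
      simp only [anti, Finset.range_zero, Finset.sum_empty, Nat.cast_one]
      norm_num at h2 ⊢
      linarith
    · have hk0 : (0 : ℝ) < k := by exact_mod_cast h0
      obtain ⟨t, ht, h3⟩ := exists_hasDerivAt_eq_slope (anti y) (fun t => Real.log (y / t) ^ 2)
        (show (k : ℝ) < k + 1 by linarith)
        (fun u hu => (anti_deriv hy (by linarith [hu.1])).continuousAt.continuousWithinAt)
        (fun u hu => anti_deriv hy (by linarith [hu.1]))
      rw [add_sub_cancel_left, div_one] at h3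
      have h4 : Real.log (y / (k + 1 : ℝ)) ≤ Real.log (y / t) := by
        have ht0 : 0 < t := by linarith [ht.1]
        apply Real.log_le_log (by positivity)
        exact div_le_div_of_nonneg_left hy.le ht0 ht.2.le
      have h5 : Real.log (y / (k + 1 : ℝ)) ^ 2 ≤ Real.log (y / t) ^ 2 :=
        pow_le_pow_left₀ h2 h4 2
      push_cast at h1 ⊢
      linarith

lemma anti_le {y t : ℝ} (hy : 0 < y) (ht : 0 ≤ t) (h : t ≤ y) : anti y t ≤ 2 * y := by
  rcases ht.eq_or_lt with h0 | h0
  · rw [← h0]; simp [anti, hy.le]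
  · have h1 : 0 ≤ Real.log (y / t) := Real.log_nonneg (by rw [le_div_iff₀ h0]; linarith)
    have h2 := Real.quadratic_le_exp_of_nonneg h1
    rw [Real.exp_log (by positivity)] at h2
    have h3 := mul_le_mul_of_nonneg_left h2 ht
    rw [mul_div_cancel₀ _ h0.ne'] at h3
    unfold anti
    linarith

/-- `|log (2 sin (π b / M))|` for `6 b ≤ M` -/
lemma sin_small {M b : ℕ} (hb : 0 < b) (h : 6 * b ≤ M) :
    (Real.log (2 * Real.sin (Real.pi * (b / M)))) ^ 2 ≤ Real.log (((M : ℝ) / 6) / b) ^ 2 := by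
  have hM : (0 : ℝ) < M := by
    have : 0 < M := by omega
    exact_mod_cast this
  have hb0 : (0 : ℝ) < b := by exact_mod_cast hb
  have h6 : (6 : ℝ) * b ≤ M := by exact_mod_cast h
  set x : ℝ := b / M with hx
  have hx0 : 0 < x := by positivity
  have hx6 : x ≤ 1 / 6 := by
    rw [hx, div_le_iff₀ hM]
    linarith
  have hpi := Real.pi_pos
  -- concavity
  have h1 : 6 * x ≤ 2 * Real.sin (Real.pi * x) := by
    have hc := strictConcaveOn_sin_Icc.concaveOn
    have h2 := hc.2 (show (0 : ℝ) ∈ Set.Icc 0 Real.pi from ⟨le_rfl, hpi.le⟩)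
      (show Real.pi / 6 ∈ Set.Icc 0 Real.pi from ⟨by positivity, by linarith⟩)
      (show 0 ≤ 1 - 6 * x by linarith) (show 0 ≤ 6 * x by positivity) (by ring)
    simp only [smul_eq_mul, mul_zero, zero_add, Real.sin_zero, Real.sin_pi_div_six] at h2
    have h3 : 6 * x * (Real.pi / 6) = Real.pi * x := by ring
    rw [h3] at h2
    linarith
  have h2 : 2 * Real.sin (Real.pi * x) ≤ 1 := by
    have h3 : Real.sin (Real.pi * x) ≤ Real.sin (Real.pi / 6) := by
      apply Real.sin_le_sin_of_le_of_le_pi_div_two <;> nlinarith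
    rw [Real.sin_pi_div_six] at h3
    linarith
  have h3 : (M : ℝ) / 6 / b = (6 * x)⁻¹ := by
    rw [hx]
    field_simp
  rw [h3, Real.log_inv, neg_sq]
  have h4 : Real.log (6 * x) ≤ Real.log (2 * Real.sin (Real.pi * x)) :=
    Real.log_le_log (by positivity) h1
  have h5 : Real.log (2 * Real.sin (Real.pi * x)) ≤ 0 :=
    Real.log_nonpos (by linarith) h2
  nlinarith

lemma sin_big {M b : ℕ} (hb : M < 6 * b) (h : 6 * b < 5 * M) :
    (Real.log (2 * Real.sin (Real.pi * (b / M)))) ^ 2 ≤ Real.log 2 ^ 2 := by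
  have hM : (0 : ℝ) < M := by
    have : 0 < M := by omega
    exact_mod_cast this
  have h6 : (M : ℝ) < 6 * b := by exact_mod_cast hb
  have h7 : (6 : ℝ) * b < 5 * M := by exact_mod_cast h
  set x : ℝ := b / M with hx
  have hx6 : 1 / 6 ≤ x := by
    rw [hx, le_div_iff₀ hM]
    linarith
  have hx5 : x ≤ 5 / 6 := by
    rw [hx, div_le_iff₀ hM]
    linarith
  have hpi := Real.pi_pos
  have h1 : 1 / 2 ≤ Real.sin (Real.pi * x) := by
    rcases le_total x (1 / 2) with h2 | h2
    · rw [← Real.sin_pi_div_six]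
      apply Real.sin_le_sin_of_le_of_le_pi_div_two <;> nlinarith
    · rw [← Real.sin_pi_div_six, ← Real.sin_pi_sub (Real.pi * x)]
      apply Real.sin_le_sin_of_le_of_le_pi_div_two <;> nlinarith
  have h2 := Real.sin_le_one (Real.pi * x)
  have h3 : 0 ≤ Real.log (2 * Real.sin (Real.pi * x)) := Real.log_nonneg (by linarith)
  have h4 : Real.log (2 * Real.sin (Real.pi * x)) ≤ Real.log 2 :=
    Real.log_le_log (by linarith) (by linarith)
  exact pow_le_pow_left₀ h3 h4 2

/-- the square sum over the nonzero residues -/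
theorem sum_sin (M : ℕ) (hM : 4 ≤ M) :
    ∑ b ∈ Ico 1 M, (Real.log (2 * Real.sin (Real.pi * (b / M)))) ^ 2 ≤ 1.11 * M := by
  classical
  have hM0 : (0 : ℝ) < M := by
    have : 0 < M := by omega
    exact_mod_cast this
  set f : ℕ → ℝ := fun b => (Real.log (2 * Real.sin (Real.pi * (b / M)))) ^ 2 with hf
  have hsym : ∀ b ∈ Ico 1 M, f (M - b) = f b := by
    intro b hb
    rw [mem_Ico] at hb
    simp only [hf]
    rw [Nat.cast_sub hb.2.le, sub_div, div_self hM0.ne', mul_sub, mul_one, Real.sin_pi_sub]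
  set k := M / 6 with hk
  -- the small residues
  have hsmall : ∑ b ∈ range k, f (b + 1) ≤ M / 3 := by
    have hy : (0 : ℝ) < (M : ℝ) / 6 := by positivity
    have hky : (k : ℝ) ≤ (M : ℝ) / 6 := by
      rw [le_div_iff₀ (by norm_num)]
      have : k * 6 ≤ M := Nat.div_mul_le_self M 6
      exact_mod_cast this
    have h1 : ∑ b ∈ range k, f (b + 1) ≤
        ∑ b ∈ range k, Real.log (((M : ℝ) / 6) / (b + 1 : ℕ)) ^ 2 := by
      refine Finset.sum_le_sum fun b hb => ?_
      rw [mem_range] at hb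
      exact sin_small (by omega) (by omega)
    have h2 := sum_log_sq hy k hky
    have h3 := anti_le hy (Nat.cast_nonneg k) hky
    linarith
  have hs1 : ∑ b ∈ Ico 1 (k + 1), f b ≤ M / 3 := by
    rw [Finset.sum_Ico_eq_sum_range]
    simpa [add_comm] using hsmall
  have hs2 : ∑ b ∈ Ico (M - k) M, f b ≤ M / 3 := by
    have h1 : ∑ b ∈ Ico (M - k) M, f b = ∑ b ∈ Ico 1 (k + 1), f b := by
      refine Finset.sum_bij' (fun b _ => M - b) (fun b _ => M - b) ?_ ?_ ?_ ?_ ?_
      · intro b hb
        rw [mem_Ico] at hb ⊢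
        omega
      · intro b hb
        rw [mem_Ico] at hb ⊢
        omega
      · intro b hb
        rw [mem_Ico] at hb
        omega
      · intro b hb
        rw [mem_Ico] at hb
        omega
      · intro b hb
        rw [mem_Ico] at hb
        exact (hsym b (mem_Ico.2 ⟨by omega, hb.2⟩)).symm
    rw [h1]
    exact hs1
  have hs3 : ∑ b ∈ Ico (k + 1) (M - k), f b ≤ (M - 2 * k - 1 : ℝ) * Real.log 2 ^ 2 := by
    have h1 : ∑ b ∈ Ico (k + 1) (M - k), f b ≤ ∑ _b ∈ Ico (k + 1) (M - k), Real.log 2 ^ 2 := by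
      refine Finset.sum_le_sum fun b hb => ?_
      rw [mem_Ico] at hb
      rcases lt_or_ge (6 * b) (5 * M) with h2 | h2
      · exact sin_big (by omega) h2
      · -- `6 b = 5 M`
        have h3 : f b = f (M - b) := (hsym b (mem_Ico.2 ⟨by omega, by omega⟩)).symm
        rw [h3]
        have h4 : 6 * (M - b) ≤ M := by omega
        have h5 := sin_small (M := M) (b := M - b) (by omega) h4
        refine h5.trans ?_
        have h6 : 6 * (M - b) = M := by omega
        have h7 : (M : ℝ) / 6 / ((M - b : ℕ) : ℝ) = 1 := by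
          have h8 : ((6 * (M - b) : ℕ) : ℝ) = (M : ℝ) := by rw [h6]
          rw [Nat.cast_mul] at h8
          have h9 : (0 : ℝ) < ((M - b : ℕ) : ℝ) := by
            have : 0 < M - b := by omega
            exact_mod_cast this
          rw [← h8]
          field_simp
          norm_num
        rw [h7, Real.log_one, zero_pow two_ne_zero]
        positivity
    refine h1.trans (le_of_eq ?_)
    rw [Finset.sum_const, Nat.card_Ico, nsmul_eq_mul]
    congr 1
    have : 2 * k + 1 ≤ M := by omega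
    have h2 : M - k - (k + 1) = M - (2 * k + 1) := by omega
    rw [h2, Nat.cast_sub this]
    push_cast
    ring
  have hsplit : ∑ b ∈ Ico 1 M, f b = ∑ b ∈ Ico 1 (k + 1), f b + (∑ b ∈ Ico (k + 1) (M - k), f b +
      ∑ b ∈ Ico (M - k) M, f b) := by
    rw [Finset.sum_Ico_consecutive _ (by omega) (by omega),
      Finset.sum_Ico_consecutive _ (by omega) (by omega)]
  have hlog : Real.log 2 ^ 2 ≤ 0.4805 := by
    have h1 := Real.log_two_lt_d9
    have h2 : 0 ≤ Real.log 2 := Real.log_nonneg (by norm_num)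
    nlinarith
  have hk2 : (M : ℝ) - 5 ≤ 6 * k := by
    have : M ≤ 6 * k + 5 := by omega
    have h3 : (M : ℝ) ≤ 6 * k + 5 := by exact_mod_cast this
    linarith
  rw [hsplit]
  have hM4 : (4 : ℝ) ≤ M := by exact_mod_cast hM
  have h1 : (M - 2 * k - 1 : ℝ) * Real.log 2 ^ 2 ≤ (2 / 3 * M + 2 / 3) * 0.4805 := by
    have h2 : (M - 2 * k - 1 : ℝ) ≤ 2 / 3 * M + 2 / 3 := by linarith
    calc (M - 2 * k - 1 : ℝ) * Real.log 2 ^ 2 ≤ (2 / 3 * M + 2 / 3) * Real.log 2 ^ 2 :=
          mul_le_mul_of_nonneg_right h2 (sq_nonneg _)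
      _ ≤ _ := mul_le_mul_of_nonneg_left hlog (by positivity)
  linarith

end Pool.Agent.N840.CU
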