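import Mathlib
import Pool.Agent.N840.CU.Lam
import Pool.Agent.N840.CU.Family

/-!
# Cyclotomic units of the field of `M`-th roots of unity
-/

set_option autoImplicit false
set_option linter.unusedSectionVars false

open Finset

namespace Pool.Agent.N840.CU

/-- `log |1 - e(x/M)|` -/
noncomputable def lam {M : ℕ} [NeZero M] (x : ZMod M) : ℝ :=
  Real.log ‖(1 : ℂ) - ZMod.stdAddChar x‖

lemma lam_eq {M : ℕ} [NeZero M] (x : ZMod M) :
    (lam x) ^ 2 = (Real.log (2 * Real.sin (Real.pi * (x.val / M)))) ^ 2 := by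
  unfold lam
  have h1 : (ZMod.stdAddChar x : ℂ) =
      Complex.exp (Complex.I * ((2 * Real.pi * (x.val : ℝ) / M : ℝ) : ℂ)) := by
    rw [ZMod.stdAddChar_apply, ZMod.toCircle_apply]
    congr 1
    push_cast
    ring
  rw [h1, norm_sub_rev, Complex.norm_exp_I_mul_ofReal_sub_one, Real.norm_eq_abs, Real.log_abs]
  congr 4
  ring

/-- the square sum over the nonzero residues -/
theorem sum_lam (M : ℕ) [NeZero M] (hM : 4 ≤ M) :
    ∑ x ∈ univ.erase (0 : ZMod M), (lam x) ^ 2 ≤ 1.11 * M := by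
  classical
  refine le_trans (le_of_eq ?_) (sum_sin M hM)
  refine Finset.sum_bij' (fun x _ => x.val) (fun b _ => (b : ZMod M)) ?_ ?_ ?_ ?_ ?_
  · intro x hx
    rw [mem_Ico]
    refine ⟨Nat.pos_of_ne_zero fun h => (Finset.mem_erase.1 hx).1 ((ZMod.val_eq_zero x).1 h),
      ZMod.val_lt x⟩
  · intro b hb
    rw [mem_Ico] at hb
    refine Finset.mem_erase.2 ⟨fun h => ?_, Finset.mem_univ _⟩
    rw [ZMod.natCast_eq_zero_iff] at h
    have := Nat.le_of_dvd (by omega) h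
    omega
  · intro x _
    exact ZMod.natCast_zmod_val x
  · intro b hb
    rw [mem_Ico] at hb
    exact ZMod.val_cast_of_lt hb.2
  · intro x _
    exact lam_eq x

section
variable {M : ℕ} [hM : NeZero M] {K : Type} [Field K] [CharZero K]
  [hK : IsCyclotomicExtension {M} ℚ K] {ζ : K}

/-- complex conjugation -/
theorem exists_conj (hζ : IsPrimitiveRoot ζ M) : ∃ c : K →+* K,
    ∀ (φ : K →ₐ[ℚ] ℂ) (x : K), φ (c x) = (starRingEnd ℂ) (φ x) := by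
  have hM0 : 0 < M := Nat.pos_of_ne_zero hM.out
  set pb := hζ.powerBasis ℚ with hpb
  have hgen : pb.gen = ζ := hζ.powerBasis_gen ℚ
  have hmin : minpoly ℚ ζ = Polynomial.cyclotomic M ℚ :=
    (Polynomial.cyclotomic_eq_minpoly_rat hζ hM0).symm
  have hroot : Polynomial.aeval ζ⁻¹ (minpoly ℚ pb.gen) = 0 := by
    rw [hgen, hmin, Polynomial.aeval_def, ← Polynomial.eval_map, Polynomial.map_cyclotomic]
    have : NeZero ((M : ℕ) : K) := ⟨by exact_mod_cast hM.out⟩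
    have := (Polynomial.isRoot_cyclotomic_iff (R := K) (n := M) (μ := ζ⁻¹)).2 hζ.inv
    exact this
  refine ⟨(pb.lift ζ⁻¹ hroot : K →ₐ[ℚ] K), fun φ x => ?_⟩
  -- two algebra homomorphisms
  let f : K →ₐ[ℚ] ℂ := φ.comp (pb.lift ζ⁻¹ hroot)
  let g : K →ₐ[ℚ] ℂ := (((starRingEnd ℂ) : ℂ →+* ℂ).comp (φ : K →+* ℂ)).toRatAlgHom
  have hfg : f = g := by
    apply pb.algHom_ext
    have e1 : f pb.gen = φ ζ⁻¹ := by
      show φ (pb.lift ζ⁻¹ hroot pb.gen) = _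
      rw [PowerBasis.lift_gen]
    have e2 : g pb.gen = (starRingEnd ℂ) (φ ζ) := by
      show (starRingEnd ℂ) (φ pb.gen) = _
      rw [hgen]
    rw [e1, e2, map_inv₀]
    have h1 : IsPrimitiveRoot (φ ζ) M := hζ.map_of_injective φ.injective
    have h2 : ‖φ ζ‖ = 1 := h1.norm'_eq_one hM.out
    rw [Complex.inv_def, Complex.normSq_eq_norm_sq, h2]
    simp
  exact congrArg (fun h : K →ₐ[ℚ] ℂ => h x) hfg

/-- every embedding sends `ζ` to `e(b/M)` -/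
theorem exists_inj (hζ : IsPrimitiveRoot ζ M) : ∃ B : (K →ₐ[ℚ] ℂ) → ZMod M,
    (∀ φ, φ ζ = ZMod.stdAddChar (B φ)) ∧ Function.Injective B := by
  classical
  have hM0 : 0 < M := Nat.pos_of_ne_zero hM.out
  have hξ : IsPrimitiveRoot (Complex.exp (2 * Real.pi * Complex.I / M)) M :=
    Complex.isPrimitiveRoot_exp M hM.out
  have key : ∀ φ : K →ₐ[ℚ] ℂ, ∃ b : ZMod M, φ ζ = ZMod.stdAddChar b := by
    intro φ
    have h1 : IsPrimitiveRoot (φ ζ) M := hζ.map_of_injective φ.injective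
    obtain ⟨i, -, hi⟩ := hξ.eq_pow_of_pow_eq_one h1.pow_eq_one
    refine ⟨((i : ℤ) : ZMod M), ?_⟩
    rw [← hi, ZMod.stdAddChar_coe, ← Complex.exp_nat_mul]
    congr 1
    push_cast
    ring
  choose B hB using key
  refine ⟨B, hB, fun φ ψ h => ?_⟩
  apply (hζ.powerBasis ℚ).algHom_ext
  rw [hζ.powerBasis_gen ℚ, hB, hB, h]

lemma zeta_pow_ne (hM2 : 2 ≤ M) (hζ : IsPrimitiveRoot ζ M) {a : ℕ} (ha : a.Coprime M) :
    (1 : K) - ζ ^ a ≠ 0 := by
  intro h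
  have h3 : ζ ^ a = 1 := (sub_eq_zero.1 h).symm
  have h4 := hζ.dvd_of_pow_eq_one a h3
  have h5 : M ∣ 1 := by
    rw [← Nat.Coprime.gcd_eq_one ha]
    exact Nat.dvd_gcd h4 dvd_rfl
  have := Nat.le_of_dvd one_pos h5
  omega

/-- `(1 - ζ^a) / (1 - ζ)` and its inverse are integral -/
lemma unit_int (hM2 : 2 ≤ M) (hζ : IsPrimitiveRoot ζ M) {a : ℕ} (ha : a.Coprime M) :
    IsIntegral ℤ ((1 - ζ ^ a) / (1 - ζ)) ∧ IsIntegral ℤ ((1 - ζ ^ a) / (1 - ζ))⁻¹ := by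
  have hM0 : 0 < M := by omega
  have hint : IsIntegral ℤ ζ := hζ.isIntegral hM0
  have key : ∀ (z : K) (n : ℕ), IsIntegral ℤ z → z ≠ 1 → IsIntegral ℤ ((1 - z ^ n) / (1 - z)) := by
    intro z n hz hz1
    have e : (1 - z ^ n) / (1 - z) = ∑ i ∈ range n, z ^ i := by
      rw [geom_sum_eq hz1, ← neg_sub (1 : K) (z ^ n), ← neg_sub (1 : K) z, neg_div_neg_eq]
    rw [e]
    exact IsIntegral.sum _ fun i _ => hz.pow i
  refine ⟨key ζ a hint (hζ.ne_one (by omega)), ?_⟩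
  obtain ⟨b, hb⟩ := Nat.exists_mul_mod_eq_one_of_coprime ha (by omega)
  have h3 : (ζ ^ a) ^ b = ζ := by
    rw [← pow_mul, ← Nat.div_add_mod (a * b) M, hb.2, pow_add, pow_mul, hζ.pow_eq_one, one_pow,
      one_mul, pow_one]
  have h4 := key (ζ ^ a) b (hint.pow a) (by
    intro h; exact zeta_pow_ne hM2 hζ ha (by rw [h, sub_self]))
  rw [h3] at h4
  rw [inv_div]
  exact h4

/-- `(1 - ζ^a) / (1 - ζ^b)` and its inverse are integral -/
lemma unit_int' (hM2 : 2 ≤ M) (hζ : IsPrimitiveRoot ζ M) {a b : ℕ} (ha : a.Coprime M)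
    (hb : b.Coprime M) :
    IsIntegral ℤ ((1 - ζ ^ a) / (1 - ζ ^ b)) ∧ IsIntegral ℤ ((1 - ζ ^ a) / (1 - ζ ^ b))⁻¹ := by
  have h1 : (1 : K) - ζ ≠ 0 := by
    have := zeta_pow_ne hM2 hζ (Nat.coprime_one_left M)
    rwa [pow_one] at this
  have h2 := zeta_pow_ne hM2 hζ ha
  have h3 := zeta_pow_ne hM2 hζ hb
  obtain ⟨ha1, ha2⟩ := unit_int hM2 hζ ha
  obtain ⟨hb1, hb2⟩ := unit_int hM2 hζ hb
  have e : (1 - ζ ^ a) / (1 - ζ ^ b) = ((1 - ζ ^ a) / (1 - ζ)) * ((1 - ζ ^ b) / (1 - ζ))⁻¹ := by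
    field_simp
  refine ⟨by rw [e]; exact ha1.mul hb2, ?_⟩
  rw [e, mul_inv, inv_inv]
  exact ha2.mul hb1

/-- the square sum of the logarithms of the conjugates of `1 - ζ^a` -/
lemma sum_log_one (hM4 : 4 ≤ M) (hζ : IsPrimitiveRoot ζ M) [NumberField K] {a : ℕ}
    (ha : a.Coprime M) :
    ∑ φ : K →ₐ[ℚ] ℂ, (Real.log ‖φ (1 - ζ ^ a)‖) ^ 2 ≤ 1.11 * M := by
  classical
  obtain ⟨B, hB, hBinj⟩ := exists_inj (K := K) hζ
  have h1 : ∀ φ : K →ₐ[ℚ] ℂ, (Real.log ‖φ (1 - ζ ^ a)‖) ^ 2 = (lam ((a : ZMod M) * B φ)) ^ 2 := by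
    intro φ
    unfold lam
    rw [map_sub, map_one, map_pow, hB, ← AddChar.map_nsmul_eq_pow, nsmul_eq_mul]
  have hu : IsUnit (a : ZMod M) := (ZMod.isUnit_iff_coprime a M).2 ha
  have hinj : Function.Injective (fun φ : K →ₐ[ℚ] ℂ => (a : ZMod M) * B φ) :=
    fun φ ψ h => hBinj (hu.mul_left_cancel h)
  refine le_trans ?_ (sum_lam M hM4)
  rw [Finset.sum_congr rfl fun φ _ => h1 φ,
    ← Finset.sum_image (s := univ) (g := fun φ : K →ₐ[ℚ] ℂ => (a : ZMod M) * B φ)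
      (f := fun x => (lam x) ^ 2) (fun x _ y _ h => hinj h)]
  refine Finset.sum_le_sum_of_subset_of_nonneg ?_ fun _ _ _ => sq_nonneg _
  intro x hx
  obtain ⟨φ, -, rfl⟩ := Finset.mem_image.1 hx
  refine Finset.mem_erase.2 ⟨fun h => ?_, Finset.mem_univ _⟩
  have h2 : φ (1 - ζ ^ a) = 0 := by
    rw [map_sub, map_one, map_pow, hB, ← AddChar.map_nsmul_eq_pow, nsmul_eq_mul, h,
      AddChar.map_zero_eq_one, sub_self]
  exact zeta_pow_ne (by omega) hζ ha ((map_eq_zero φ).1 h2)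

lemma log_const : (1.184 : ℝ) ≤ Real.log (27 / 8) := by
  have h1 : Real.log (27 / 8) = 3 * Real.log (3 / 2) := by
    rw [show (27 / 8 : ℝ) = (3 / 2) ^ 3 by norm_num, Real.log_pow]
    push_cast
    ring
  have h2 : (0.4 : ℝ) ≤ Real.log (3 / 2) := by
    rw [Real.le_log_iff_exp_le (by norm_num)]
    have h6 := Real.exp_bound' (x := 0.4) (by norm_num) (by norm_num) (n := 4) (by norm_num)
    refine h6.trans ?_
    norm_num [Finset.sum_range_succ, Nat.factorial]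
  rw [h1]
  linarith

/-- The families for cyclotomic units. -/
theorem cyc_family (hM4 : 4 ≤ M) (hζ : IsPrimitiveRoot ζ M) {n J : ℕ} (a b : Fin n → ℕ)
    (ha : ∀ i, (a i).Coprime M) (hb : ∀ i, (b i).Coprime M) (R q : ℕ) (hR0 : 0 < R) (hq : 0 < q)
    (hR : 15 * n * M ≤ R ^ 2 * M.totient) (y : Fin J → K)
    (hy : ∀ j, ∃ (w : K) (c : Fin n → ℤ), IsTor w ∧
      y j ^ q = w * ∏ i, ((1 - ζ ^ a i) / (1 - ζ ^ b i)) ^ c i)
    (hne : ∀ j k, (∃ (w : K) (m : Fin n → ℤ), IsTor w ∧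
      y j = w * y k * ∏ i, ((1 - ζ ^ a i) / (1 - ζ ^ b i)) ^ m i) → j = k) :
    J ≤ 2 * R ^ n := by
  have hM2 : 2 ≤ M := by omega
  have : NumberField K := IsCyclotomicExtension.numberField {M} ℚ K
  obtain ⟨c, hc⟩ := exists_conj (K := K) hζ
  refine family c hc (fun i => (1 - ζ ^ a i) / (1 - ζ ^ b i))
    (fun i => div_ne_zero (zeta_pow_ne hM2 hζ (ha i)) (zeta_pow_ne hM2 hζ (hb i)))
    (fun i => (unit_int' hM2 hζ (ha i) (hb i)).1) (fun i => (unit_int' hM2 hζ (ha i) (hb i)).2)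
    R q hR0 hq ?_ y hy hne
  have hfin : Module.finrank ℚ K = M.totient :=
    IsCyclotomicExtension.finrank K (Polynomial.cyclotomic.irreducible_rat (by omega))
  rw [hfin]
  have h1 : ∀ i, ∑ φ : K →ₐ[ℚ] ℂ, (Real.log ‖φ ((1 - ζ ^ a i) / (1 - ζ ^ b i))‖) ^ 2 ≤
      4.44 * M := by
    intro i
    have h2 : ∀ φ : K →ₐ[ℚ] ℂ, (Real.log ‖φ ((1 - ζ ^ a i) / (1 - ζ ^ b i))‖) ^ 2 ≤
        2 * (Real.log ‖φ (1 - ζ ^ a i)‖) ^ 2 + 2 * (Real.log ‖φ (1 - ζ ^ b i)‖) ^ 2 := by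
      intro φ
      rw [map_div₀, norm_div, Real.log_div
        (norm_ne_zero_iff.2 ((map_ne_zero φ).2 (zeta_pow_ne hM2 hζ (ha i))))
        (norm_ne_zero_iff.2 ((map_ne_zero φ).2 (zeta_pow_ne hM2 hζ (hb i))))]
      nlinarith [sq_nonneg (Real.log ‖φ (1 - ζ ^ a i)‖ + Real.log ‖φ (1 - ζ ^ b i)‖)]
    refine (Finset.sum_le_sum fun φ _ => h2 φ).trans ?_
    rw [Finset.sum_add_distrib, ← Finset.mul_sum, ← Finset.mul_sum]
    have h3 := sum_log_one hM4 hζ (ha i)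
    have h4 := sum_log_one hM4 hζ (hb i)
    linarith
  have h2 := Finset.sum_le_sum fun i (_ : i ∈ (univ : Finset (Fin n))) => h1 i
  rw [Finset.sum_const, Finset.card_univ, Fintype.card_fin, nsmul_eq_mul] at h2
  have h3 : (15 : ℝ) * n * M ≤ (R : ℝ) ^ 2 * M.totient := by exact_mod_cast hR
  have h4 := mul_le_mul h3 log_const (by norm_num) (by positivity)
  have h5 : (0 : ℝ) ≤ n * M := by positivity
  nlinarith

end

end Pool.Agent.N840.CU
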