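import Mathlib
import Pool.Agent.N840.CU.Cyc
import Pool.Agent.N895.RO.Basic

/-!
# Short circular units at all levels; the index in the saturation
-/

set_option autoImplicit false
set_option linter.unusedSectionVars false

open Finset

namespace Pool.Agent.N840.CU

/-- the square sum, all levels -/
theorem sum_sin_all (M : ℕ) :
    ∑ b ∈ Ico 1 M, (Real.log (2 * Real.sin (Real.pi * (b / M)))) ^ 2 ≤ 1.11 * M := by
  rcases lt_or_ge M 4 with hM | hM
  · have hlog : Real.log 2 ^ 2 ≤ 0.4805 := by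
      have h1 := Real.log_two_lt_d9
      have h2 : 0 ≤ Real.log 2 := Real.log_nonneg (by norm_num)
      nlinarith
    have h1 : ∑ b ∈ Ico 1 M, (Real.log (2 * Real.sin (Real.pi * (b / M)))) ^ 2 ≤
        ∑ _b ∈ Ico 1 M, (1.11 : ℝ) := by
      refine Finset.sum_le_sum fun b hb => ?_
      rw [mem_Ico] at hb
      refine (sin_big (M := M) (b := b) (by omega) (by omega)).trans ?_
      linarith
    refine h1.trans ?_
    rw [Finset.sum_const, Nat.card_Ico, nsmul_eq_mul, mul_comm]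
    apply mul_le_mul_of_nonneg_left _ (by norm_num)
    exact_mod_cast Nat.sub_le M 1
  · exact sum_sin M hM

theorem sum_lam_all (M : ℕ) [NeZero M] : ∑ x : ZMod M, (lam x) ^ 2 ≤ 1.11 * M := by
  classical
  have h0 : (lam (0 : ZMod M)) = 0 := by
    unfold lam
    rw [AddChar.map_zero_eq_one, sub_self, norm_zero, Real.log_zero]
  rw [← Finset.add_sum_erase univ _ (Finset.mem_univ (0 : ZMod M)), h0, zero_pow two_ne_zero,
    zero_add]
  refine le_trans (le_of_eq ?_) (sum_sin_all M)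
  refine Finset.sum_bij' (fun x _ => x.val) (fun b _ => (b : ZMod M)) ?_ ?_ ?_ ?_ ?_
  · intro x hx
    rw [mem_Ico]
    refine ⟨Nat.pos_of_ne_zero fun h => (Finset.mem_erase.1 hx).1 ((ZMod.val_eq_zero x).1 h),
      ZMod.val_lt x⟩
  · intro b hb
    rw [mem_Ico] at hb
    refine Finset.mem_erase.2 ⟨fun h => ?_, Finset.mem_univ _⟩
    rw [ZMod.natCast_eq_zero_iff] at h
    have := Nat.le_of_dvd (by omega) h
    omega
  · intro x _
    exact ZMod.natCast_zmod_val x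
  · intro b hb
    rw [mem_Ico] at hb
    exact ZMod.val_cast_of_lt hb.2
  · intro x _
    exact lam_eq x

lemma sum_zmod_range {R : Type} [AddCommMonoid R] (M : ℕ) [NeZero M] (G : ZMod M → R) :
    ∑ x, G x = ∑ k ∈ range M, G (k : ZMod M) := by
  refine Finset.sum_bij' (fun x _ => x.val) (fun k _ => (k : ZMod M)) ?_ ?_ ?_ ?_ ?_
  · intro x _
    exact mem_range.2 (ZMod.val_lt x)
  · intro k _
    exact Finset.mem_univ _
  · intro x _
    exact ZMod.natCast_zmod_val x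
  · intro k hk
    exact ZMod.val_cast_of_lt (mem_range.1 hk)
  · intro x _
    rw [ZMod.natCast_zmod_val]

lemma lam_nat {M : ℕ} [NeZero M] (k : ℕ) :
    lam (k : ZMod M) = Real.log ‖(1 : ℂ) - Complex.exp (2 * Real.pi * Complex.I * k / M)‖ := by
  unfold lam
  have h1 := ZMod.stdAddChar_coe (N := M) (k : ℤ)
  push_cast at h1
  rw [h1]

/-- the multiples of one residue -/
theorem sum_lam_mul (M : ℕ) [NeZero M] (a : ℕ) :
    ∑ x : ZMod M, (lam ((a : ZMod M) * x)) ^ 2 ≤ 1.11 * M := by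
  classical
  have hM0 : 0 < M := Nat.pos_of_ne_zero (NeZero.ne M)
  obtain ⟨g, a', M', hg0, hM'0, ha, hM, hcop⟩ : ∃ g a' M' : ℕ, 0 < g ∧ 0 < M' ∧ a = g * a' ∧
      M = g * M' ∧ a'.Coprime M' := by
    have hg0 : 0 < Nat.gcd a M := Nat.gcd_pos_of_pos_right a hM0
    obtain ⟨a', ha'⟩ : Nat.gcd a M ∣ a := Nat.gcd_dvd_left a M
    obtain ⟨M', hM'⟩ : Nat.gcd a M ∣ M := Nat.gcd_dvd_right a M
    refine ⟨Nat.gcd a M, a', M', hg0, ?_, ha', hM', ?_⟩
    · rcases Nat.eq_zero_or_pos M' with h | h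
      · rw [h, mul_zero] at hM'
        omega
      · exact h
    · have h1 : Nat.gcd a M * Nat.gcd a' M' = Nat.gcd a M * 1 := by
        rw [← Nat.gcd_mul_left, ← ha', ← hM', mul_one]
      exact Nat.eq_of_mul_eq_mul_left hg0 h1
  subst ha hM
  have : NeZero M' := ⟨hM'0.ne'⟩
  have hgR : (0 : ℝ) < g := by exact_mod_cast hg0
  have h1 : ∀ k : ℕ, (lam (((g * a' : ℕ) : ZMod (g * M')) * (k : ZMod (g * M')))) ^ 2 =
      (lam ((a' : ZMod M') * ((k % M' : ℕ) : ZMod M'))) ^ 2 := by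
    intro k
    rw [ZMod.natCast_mod, ← Nat.cast_mul, ← Nat.cast_mul, lam_nat, lam_nat]
    have h2 : (2 * Real.pi * Complex.I * ((g * a' * k : ℕ) : ℂ) / ((g * M' : ℕ) : ℂ)) =
        (2 * Real.pi * Complex.I * ((a' * k : ℕ) : ℂ) / (M' : ℂ)) := by
      have h3 : (g : ℂ) ≠ 0 := by exact_mod_cast hg0.ne'
      have h4 : (M' : ℂ) ≠ 0 := by exact_mod_cast hM'0.ne'
      push_cast
      field_simp
    rw [h2]
  rw [sum_zmod_range, Finset.sum_congr rfl fun k _ => h1 k,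
    Pool.Agent.N895.RO.sum_range_mul_mod g M' (fun k => (lam ((a' : ZMod M') * (k : ZMod M'))) ^ 2),
    ← sum_zmod_range M' (fun x => (lam ((a' : ZMod M') * x)) ^ 2), nsmul_eq_mul]
  have hu : IsUnit (a' : ZMod M') := (ZMod.isUnit_iff_coprime a' M').2 hcop
  have h2 : ∑ x : ZMod M', (lam ((a' : ZMod M') * x)) ^ 2 = ∑ x : ZMod M', (lam x) ^ 2 := by
    obtain ⟨u, hu'⟩ := hu
    rw [← hu']
    exact Equiv.sum_comp (Units.mulLeft u) (fun x => (lam x) ^ 2)
  rw [h2]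
  have h3 := mul_le_mul_of_nonneg_left (sum_lam_all M') hgR.le
  push_cast
  linarith

section
variable {M : ℕ} [hM : NeZero M] {K : Type} [Field K] [CharZero K]
  [hK : IsCyclotomicExtension {M} ℚ K] {ζ : K}

/-- the square sum of the logarithms of the conjugates of `1 - ζ^a`, for all `a` -/
lemma sum_log_all (hζ : IsPrimitiveRoot ζ M) [NumberField K] (a : ℕ) :
    ∑ φ : K →ₐ[ℚ] ℂ, (Real.log ‖φ (1 - ζ ^ a)‖) ^ 2 ≤ 1.11 * M := by
  classical
  obtain ⟨B, hB, hBinj⟩ := exists_inj (K := K) hζ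
  have h1 : ∀ φ : K →ₐ[ℚ] ℂ, (Real.log ‖φ (1 - ζ ^ a)‖) ^ 2 = (lam ((a : ZMod M) * B φ)) ^ 2 := by
    intro φ
    unfold lam
    rw [map_sub, map_one, map_pow, hB, ← AddChar.map_nsmul_eq_pow, nsmul_eq_mul]
  refine le_trans ?_ (sum_lam_mul M a)
  rw [Finset.sum_congr rfl fun φ _ => h1 φ,
    ← Finset.sum_image (s := univ) (g := B) (f := fun x => (lam ((a : ZMod M) * x)) ^ 2)
      (fun x _ y _ h => hBinj h)]
  exact Finset.sum_le_sum_of_subset_of_nonneg (Finset.subset_univ _) fun _ _ _ => sq_nonneg _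

/-- `x` is a product of at most `k` factors `1 - ζ^a` and their inverses, `ζ^a` not one -/
def IsShort {K : Type} [Field K] (ζ : K) (k : ℕ) (x : K) : Prop :=
  ∃ (a : Fin k → ℕ) (s : Fin k → ℤ), (∀ j, ζ ^ a j ≠ 1) ∧ (∀ j, |s j| ≤ 1) ∧
    x = ∏ j, (1 - ζ ^ a j) ^ s j

lemma short_sum (hζ : IsPrimitiveRoot ζ M) [NumberField K] (k : ℕ) (x : K) (hx : IsShort ζ k x) :
    ∑ φ : K →ₐ[ℚ] ℂ, (Real.log ‖φ x‖) ^ 2 ≤ 1.11 * k ^ 2 * M := by
  obtain ⟨a, s, ha, hs, rfl⟩ := hx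
  have h1 : ∀ φ : K →ₐ[ℚ] ℂ, (Real.log ‖φ (∏ j, (1 - ζ ^ a j) ^ s j)‖) ^ 2 ≤
      k * ∑ j, (Real.log ‖φ (1 - ζ ^ a j)‖) ^ 2 := by
    intro φ
    rw [map_prod, norm_prod, Real.log_prod]
    · have h2 := sq_sum_le_card_mul_sum_sq (s := (univ : Finset (Fin k)))
        (f := fun j => Real.log ‖φ ((1 - ζ ^ a j) ^ s j)‖)
      rw [Finset.card_univ, Fintype.card_fin] at h2
      refine h2.trans (mul_le_mul_of_nonneg_left (Finset.sum_le_sum fun j _ => ?_)
        (Nat.cast_nonneg k))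
      rw [map_zpow₀, norm_zpow, Real.log_zpow, mul_pow]
      have h3 : ((s j : ℤ) : ℝ) ^ 2 ≤ 1 := by
        have h4 : ((|s j| : ℤ) : ℝ) ≤ 1 := by exact_mod_cast hs j
        rw [Int.cast_abs] at h4
        rw [← sq_abs]
        exact pow_le_one₀ (abs_nonneg _) h4
      calc ((s j : ℤ) : ℝ) ^ 2 * (Real.log ‖φ (1 - ζ ^ a j)‖) ^ 2
          ≤ 1 * (Real.log ‖φ (1 - ζ ^ a j)‖) ^ 2 := mul_le_mul_of_nonneg_right h3 (sq_nonneg _)
        _ = _ := one_mul _
    · intro j _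
      exact norm_ne_zero_iff.2 ((map_ne_zero φ).2 (zpow_ne_zero _ (sub_ne_zero.2 (ha j).symm)))
  refine (Finset.sum_le_sum fun φ _ => h1 φ).trans ?_
  rw [← Finset.mul_sum, Finset.sum_comm]
  have h2 : ∑ j : Fin k, ∑ φ : K →ₐ[ℚ] ℂ, (Real.log ‖φ (1 - ζ ^ a j)‖) ^ 2 ≤
      ∑ _j : Fin k, (1.11 * M : ℝ) := Finset.sum_le_sum fun j _ => sum_log_all hζ (a j)
  rw [Finset.sum_const, Finset.card_univ, Fintype.card_fin, nsmul_eq_mul] at h2
  have h3 := mul_le_mul_of_nonneg_left h2 (Nat.cast_nonneg (α := ℝ) k)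
  linarith

/-- The families for short circular units. -/
theorem short_family (hM2 : 2 ≤ M) (hζ : IsPrimitiveRoot ζ M) (k : ℕ) {n J : ℕ} (ξ : Fin n → K)
    (h0 : ∀ i, ξ i ≠ 0) (h1 : ∀ i, IsIntegral ℤ (ξ i)) (h2 : ∀ i, IsIntegral ℤ (ξ i)⁻¹)
    (hk : ∀ i, IsShort ζ k (ξ i)) (R q : ℕ) (hR0 : 0 < R) (hq : 0 < q)
    (hR : 15 * k ^ 2 * n * M ≤ 4 * R ^ 2 * M.totient) (y : Fin J → K)
    (hy : ∀ j, ∃ (w : K) (c : Fin n → ℤ), IsTor w ∧ y j ^ q = w * ∏ i, ξ i ^ c i)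
    (hne : ∀ j l, (∃ (w : K) (m : Fin n → ℤ), IsTor w ∧ y j = w * y l * ∏ i, ξ i ^ m i) → j = l) :
    J ≤ 2 * R ^ n := by
  have : NumberField K := IsCyclotomicExtension.numberField {M} ℚ K
  obtain ⟨c, hc⟩ := exists_conj (K := K) hζ
  refine family c hc ξ h0 h1 h2 R q hR0 hq ?_ y hy hne
  have hfin : Module.finrank ℚ K = M.totient :=
    IsCyclotomicExtension.finrank K (Polynomial.cyclotomic.irreducible_rat (by omega))
  rw [hfin]
  have h3 := Finset.sum_le_sum fun i (_ : i ∈ (univ : Finset (Fin n))) => short_sum hζ k (ξ i) (hk i)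
  rw [Finset.sum_const, Finset.card_univ, Fintype.card_fin, nsmul_eq_mul] at h3
  have h4 : (15 : ℝ) * k ^ 2 * n * M ≤ 4 * (R : ℝ) ^ 2 * M.totient := by exact_mod_cast hR
  have h5 := mul_le_mul h4 log_const (by norm_num) (by positivity)
  have h6 : (0 : ℝ) ≤ k ^ 2 * n * M := by positivity
  nlinarith

end

/-- the saturation of a subgroup -/
def sat {G : Type} [CommGroup G] (C : Subgroup G) : Subgroup G where
  carrier := {x | ∃ m : ℕ, 0 < m ∧ x ^ m ∈ C}
  one_mem' := ⟨1, one_pos, by rw [one_pow]; exact C.one_mem⟩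
  mul_mem' := by
    rintro x y ⟨m, hm, hx⟩ ⟨k, hk, hy⟩
    refine ⟨m * k, Nat.mul_pos hm hk, ?_⟩
    rw [mul_pow, pow_mul, mul_comm m k, pow_mul]
    exact C.mul_mem (C.pow_mem hx k) (C.pow_mem hy m)
  inv_mem' := by
    rintro x ⟨m, hm, hx⟩
    exact ⟨m, hm, by rw [inv_pow]; exact C.inv_mem hx⟩

/-- the group generated by the `ξ i` and the roots of unity -/
def gen {K : Type} [Field K] {n : ℕ} (ξ : Fin n → Kˣ) : Subgroup Kˣ :=
  Subgroup.closure (Set.range ξ ∪ {w | ∃ m : ℕ, 0 < m ∧ w ^ m = 1})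

lemma mem_gen {K : Type} [Field K] {n : ℕ} (ξ : Fin n → Kˣ) (x : Kˣ) :
    x ∈ gen ξ ↔ ∃ (w : K) (m : Fin n → ℤ), IsTor w ∧ (x : K) = w * ∏ i, (ξ i : K) ^ m i := by
  classical
  constructor
  · intro hx
    unfold gen at hx
    induction hx using Subgroup.closure_induction with
    | mem x hx =>
      rcases hx with ⟨i, rfl⟩ | ⟨m, hm, h⟩
      · refine ⟨1, Pi.single i 1, IsTor.one, ?_⟩
        rw [one_mul, Finset.prod_eq_single i]
        · simp
        · intro j _ hj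
          rw [Pi.single_eq_of_ne hj, zpow_zero]
        · intro h
          exact absurd (Finset.mem_univ _) h
      · refine ⟨x, 0, ⟨m, hm, ?_⟩, by simp⟩
        rw [← Units.val_pow_eq_pow_val, h, Units.val_one]
    | one => exact ⟨1, 0, IsTor.one, by simp⟩
    | mul x y _ _ hx hy =>
      obtain ⟨w, m, hw, h1⟩ := hx
      obtain ⟨z, l, hz, h2⟩ := hy
      refine ⟨w * z, m + l, hw.mul hz, ?_⟩
      rw [Units.val_mul, h1, h2]
      have h3 : ∏ i, (ξ i : K) ^ ((m + l) i) = (∏ i, (ξ i : K) ^ (m i)) * ∏ i, (ξ i : K) ^ (l i) := by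
        rw [← Finset.prod_mul_distrib]
        exact Finset.prod_congr rfl fun i _ => zpow_add₀ (ξ i).ne_zero _ _
      rw [h3]
      ring
    | inv x _ hx =>
      obtain ⟨w, m, hw, h1⟩ := hx
      refine ⟨w⁻¹, -m, hw.inv, ?_⟩
      rw [Units.val_inv_eq_inv_val, h1, mul_inv, ← Finset.prod_inv_distrib]
      congr 1
      exact Finset.prod_congr rfl fun i _ => by rw [Pi.neg_apply, zpow_neg]
  · rintro ⟨w, m, hw, h⟩
    have hwu : (Units.mk0 w hw.ne_zero) ∈ gen ξ := by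
      obtain ⟨k, hk, h1⟩ := hw
      refine Subgroup.subset_closure (Or.inr ⟨k, hk, ?_⟩)
      apply Units.ext
      rw [Units.val_pow_eq_pow_val, Units.val_mk0, h1, Units.val_one]
    have h2 : x = Units.mk0 w hw.ne_zero * ∏ i, (ξ i) ^ m i := by
      apply Units.ext
      rw [h, Units.val_mul, Units.val_mk0, Units.coe_prod]
      congr 1
      exact Finset.prod_congr rfl fun i _ => by rw [Units.val_zpow_eq_zpow_val]
    rw [h2]
    refine (gen ξ).mul_mem hwu (Subgroup.prod_mem _ fun i _ => (gen ξ).zpow_mem ?_ _)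
    exact Subgroup.subset_closure (Or.inl ⟨i, rfl⟩)

/-- The index in the saturation. -/
theorem index {M : ℕ} [hM : NeZero M] {K : Type} [Field K] [CharZero K]
    [hK : IsCyclotomicExtension {M} ℚ K] {ζ : K} (hM2 : 2 ≤ M) (hζ : IsPrimitiveRoot ζ M)
    (k n : ℕ) (ξ : Fin n → Kˣ) (h1 : ∀ i, IsIntegral ℤ (ξ i : K))
    (h2 : ∀ i, IsIntegral ℤ (ξ i : K)⁻¹) (hk : ∀ i, IsShort ζ k (ξ i : K)) (R : ℕ) (hR0 : 0 < R)
    (hR : 15 * k ^ 2 * n * M ≤ 4 * R ^ 2 * M.totient) :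
    (gen ξ).relIndex (sat (gen ξ)) ≠ 0 ∧ (gen ξ).relIndex (sat (gen ξ)) ≤ 2 * R ^ n := by
  classical
  set C := gen ξ with hC
  set Q := (sat C) ⧸ (C.subgroupOf (sat C)) with hQ
  have key : ∀ (J : ℕ) (f : Fin J → Q), Function.Injective f → J ≤ 2 * R ^ n := by
    intro J f hf
    have hm : ∀ j, ∃ m : ℕ, 0 < m ∧ (((f j).out : sat C) : Kˣ) ^ m ∈ C := fun j => (f j).out.2
    choose m hm0 hmC using hm
    set q := ∏ j, m j with hq
    have hq0 : 0 < q := Finset.prod_pos fun j _ => hm0 j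
    have hqC : ∀ j, (((f j).out : sat C) : Kˣ) ^ q ∈ C := by
      intro j
      obtain ⟨t, ht⟩ := Finset.dvd_prod_of_mem m (Finset.mem_univ j)
      rw [hq, ht, pow_mul]
      exact C.pow_mem (hmC j) t
    refine short_family hM2 hζ k (fun i => (ξ i : K)) (fun i => (ξ i).ne_zero) h1 h2 hk R q hR0 hq0
      hR (fun j => ((((f j).out : sat C) : Kˣ) : K)) ?_ ?_
    · intro j
      obtain ⟨w, c, hw, h3⟩ := (mem_gen ξ _).1 (hqC j)
      exact ⟨w, c, hw, by rw [← h3, Units.val_pow_eq_pow_val]⟩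
    · intro j l hjl
      obtain ⟨w, c, hw, h3⟩ := hjl
      apply hf
      have h4 : ((((f l).out : sat C) : Kˣ))⁻¹ * (((f j).out : sat C) : Kˣ) ∈ C := by
        rw [mem_gen]
        refine ⟨w, c, hw, ?_⟩
        rw [Units.val_mul, h3, Units.val_inv_eq_inv_val]
        have h5 := ((((f l).out : sat C) : Kˣ)).ne_zero
        field_simp
      have h5 : (QuotientGroup.mk ((f l).out) : Q) = QuotientGroup.mk ((f j).out) := by
        rw [QuotientGroup.eq, Subgroup.mem_subgroupOf]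
        exact h4
      rw [← QuotientGroup.out_eq' (f j), ← QuotientGroup.out_eq' (f l)]
      exact h5.symm
  have hfin : Finite Q := by
    rcases finite_or_infinite Q with h | h
    · exact h
    · exfalso
      have h3 := key (2 * R ^ n + 1) (fun j => Infinite.natEmbedding Q j)
        (fun a b hab => Fin.ext ((Infinite.natEmbedding Q).injective hab))
      omega
  have h3 := key (Nat.card Q) (Finite.equivFin Q).symm (Equiv.injective _)
  have h4 : C.relIndex (sat C) = Nat.card Q := rfl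
  rw [h4]
  exact ⟨Nat.card_pos.ne', h3⟩

end Pool.Agent.N840.CU
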